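import Mathlib

set_option autoImplicit false

namespace Pool.Agent.H.MP_5a9264_co

open Set

def dt (p q r : ℝ × ℝ) : ℝ := (q.1 - p.1) * (r.2 - p.2) - (q.2 - p.2) * (r.1 - p.1)

def In (p q r s : ℝ × ℝ) : Prop := 0 < dt p q s ∧ 0 < dt q r s ∧ 0 < dt r p s

def In' (p q r s : ℝ × ℝ) : Prop := In p q r s ∨ In q p r s

def Dj (p q r s : ℝ × ℝ) : Prop := ∀ z ∈ segment ℝ p q, z ∉ segment ℝ r s

theorem Dj.l {p q r s : ℝ × ℝ} (h : Dj p q r s) : Dj q p r s := by
  unfold Dj; rw [segment_symm]; exact h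

theorem Dj.r {p q r s : ℝ × ℝ} (h : Dj p q r s) : Dj p q s r := by
  unfold Dj; rw [segment_symm ℝ s r]; exact h

theorem Dj.s {p q r s : ℝ × ℝ} (h : Dj p q r s) : Dj r s p q := fun z a b => h z b a

theorem mem_seg {p q z : ℝ × ℝ} (a b : ℝ) (ha : 0 ≤ a) (hb : 0 ≤ b) (hab : 0 < a + b)
    (h1 : (a + b) * z.1 = a * p.1 + b * q.1) (h2 : (a + b) * z.2 = a * p.2 + b * q.2) :
    z ∈ segment ℝ p q := by
  refine ⟨a / (a + b), b / (a + b), by positivity, by positivity, by field_simp, ?_⟩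
  ext
  · simp only [Prod.fst_add, Prod.smul_fst, smul_eq_mul]; field_simp; linarith
  · simp only [Prod.snd_add, Prod.smul_snd, smul_eq_mul]; field_simp; linarith

theorem cross {p q r s : ℝ × ℝ} (h : 0 < dt p q r) (h1 : dt q r s ≤ 0) (h2 : 0 ≤ dt r p s)
    (h3 : 0 ≤ dt p q s) : ¬ Dj p s q r := by
  intro d
  have hD : 0 < dt p q r - dt q r s := by linarith
  refine d ((dt p q r * s.1 - dt q r s * p.1) / (dt p q r - dt q r s),
    (dt p q r * s.2 - dt q r s * p.2) / (dt p q r - dt q r s))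
    (mem_seg (-dt q r s) (dt p q r) (by linarith) h.le (by linarith) ?_ ?_)
    (mem_seg (dt r p s) (dt p q s) h2 h3 ?_ ?_ ?_)
  · simp only; field_simp; ring
  · simp only; field_simp; ring
  · have : dt r p s + dt p q s = dt p q r - dt q r s := by unfold dt; ring
    linarith
  · have : dt r p s + dt p q s = dt p q r - dt q r s := by unfold dt; ring
    rw [this]; simp only; field_simp; unfold dt; ring
  · have : dt r p s + dt p q s = dt p q r - dt q r s := by unfold dt; ring
    rw [this]; simp only; field_simp; unfold dt; ring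

theorem fold0 {p q r s : ℝ × ℝ} (h : 0 < dt p q r) (h' : 0 < dt p q s) (d1 : Dj p r q s)
    (d2 : Dj p s q r) : In p q r s ∨ In p q s r := by
  have e1 : dt q s r = -dt q r s := by unfold dt; ring
  have e2 : dt s p r = -dt r p s := by unfold dt; ring
  rcases lt_or_ge 0 (dt q r s) with a | a
  · rcases lt_or_ge 0 (dt r p s) with b | b
    · exact Or.inl ⟨h', a, b⟩
    · exact absurd d1 (cross h' (by linarith) (by linarith) h.le)
  · rcases lt_or_ge (dt r p s) 0 with b | b
    · rcases a.eq_or_lt with c | c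
      · exact absurd d1 (cross h' (by linarith) (by linarith) h.le)
      · exact Or.inr ⟨h, by linarith, by linarith⟩
    · exact absurd d2 (cross h a b h'.le)

theorem unf {p q r s : ℝ × ℝ} (h : dt p q r ≠ 0) (h' : dt p q s ≠ 0) (d1 : Dj p r q s)
    (d2 : Dj p s q r) (n1 : ¬ In' p q r s) (n2 : ¬ In' p q s r) : dt p q r * dt p q s < 0 := by
  have e1 : dt q p r = -dt p q r := by unfold dt; ring
  have e2 : dt q p s = -dt p q s := by unfold dt; ring
  rcases lt_or_gt_of_ne h with a | a <;> rcases lt_or_gt_of_ne h' with b | b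
  · rcases fold0 (p := q) (q := p) (r := r) (s := s) (by linarith) (by linarith) d2.s d1.s with c | c
    · exact absurd (Or.inr c) n1
    · exact absurd (Or.inr c) n2
  · exact mul_neg_of_neg_of_pos a b
  · exact mul_neg_of_pos_of_neg a b
  · rcases fold0 a b d1 d2 with c | c
    · exact absurd (Or.inl c) n1
    · exact absurd (Or.inl c) n2

theorem In.mv {p q r s t : ℝ × ℝ} (h : In p q r s) (d1 : Dj s t p q) (d2 : Dj s t q r)
    (d3 : Dj s t r p) : In p q r t := by
  have c : ∀ a b : ℝ × ℝ, Continuous fun z => dt a b z := fun a b => by unfold dt; fun_prop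
  have hD : 0 < dt p q r := by
    have : dt p q r = dt p q s + dt q r s + dt r p s := by unfold dt; ring
    linarith [h.1, h.2.1, h.2.2]
  have key : ∀ {p q r z : ℝ × ℝ}, 0 < dt p q r → dt p q z = 0 → 0 ≤ dt q r z → 0 ≤ dt r p z →
      z ∈ segment ℝ p q := by
    intro p q r z hD a b c
    have e : dt q r z + dt r p z = dt p q r - dt p q z := by unfold dt; ring
    refine mem_seg _ _ b c (by linarith) ?_ ?_
    · have : (dt q r z + dt r p z) * z.1 = dt q r z * p.1 + dt r p z * q.1 +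
        dt p q z * (r.1 - z.1) := by unfold dt; ring
      rw [this, a]; ring
    · have : (dt q r z + dt r p z) * z.2 = dt q r z * p.2 + dt r p z * q.2 +
        dt p q z * (r.2 - z.2) := by unfold dt; ring
      rw [this, a]; ring
  have := (convex_segment (𝕜 := ℝ) s t).isPreconnected.subset_left_of_subset_union
    (u := {z | In p q r z}) (v := {z | dt p q z < 0 ∨ dt q r z < 0 ∨ dt r p z < 0})
    ((isOpen_lt continuous_const (c p q)).inter ((isOpen_lt continuous_const (c q r)).inter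
      (isOpen_lt continuous_const (c r p))))
    ((isOpen_lt (c p q) continuous_const).union ((isOpen_lt (c q r) continuous_const).union
      (isOpen_lt (c r p) continuous_const)))
    (Set.disjoint_left.2 fun z (a : In p q r z) b => by
      rcases b with b | b | b <;> linarith [a.1, a.2.1, a.2.2])
    (fun z hz => by
      by_contra hc
      simp only [mem_union, mem_ofPred_eq, not_or, not_lt] at hc
      obtain ⟨n, a, b, c⟩ := hc
      refine n ⟨lt_of_le_of_ne a fun e => d1 z hz (key hD e.symm b c),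
        lt_of_le_of_ne b fun e => d2 z hz (key (r := p) ?_ e.symm c a),
        lt_of_le_of_ne c fun e => d3 z hz (key (r := q) ?_ e.symm a b)⟩
      · have : dt q r p = dt p q r := by unfold dt; ring
        linarith
      · have : dt r p q = dt p q r := by unfold dt; ring
        linarith)
    ⟨s, left_mem_segment _ _ _, h⟩
  exact this (right_mem_segment _ _ _)

theorem In'.mv {p q r s t : ℝ × ℝ} (h : In' p q r s) (d1 : Dj s t p q) (d2 : Dj s t q r)
    (d3 : Dj s t r p) : In' p q r t :=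
  h.imp (fun a => a.mv d1 d2 d3) fun a => a.mv d1.r d3.r d2.r

theorem In'.bd {p q r t : ℝ × ℝ} (h : In' p q r t) (σ : ℝ) (h1 : σ * p.2 ≤ σ * q.2)
    (h2 : σ * p.2 ≤ σ * r.2) : σ * p.2 ≤ σ * t.2 := by
  have e : dt p q t * (r.2 - t.2) + dt q r t * (p.2 - t.2) + dt r p t * (q.2 - t.2) = 0 := by
    unfold dt; ring
  have e' : dt q p t * (r.2 - t.2) + dt p r t * (q.2 - t.2) + dt r q t * (p.2 - t.2) = 0 := by
    unfold dt; ring
  by_contra c
  push Not at c
  have k1 : 0 < σ * (p.2 - t.2) := by linarith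
  have k2 : 0 < σ * (q.2 - t.2) := by linarith
  have k3 : 0 < σ * (r.2 - t.2) := by linarith
  rcases h with ⟨a1, a2, a3⟩ | ⟨a1, a2, a3⟩
  · have := mul_pos a1 k3
    have := mul_pos a2 k1
    have := mul_pos a3 k2
    have : σ * (dt p q t * (r.2 - t.2) + dt q r t * (p.2 - t.2) + dt r p t * (q.2 - t.2)) = 0 := by
      rw [e, mul_zero]
    nlinarith
  · have := mul_pos a1 k3
    have := mul_pos a2 k2
    have := mul_pos a3 k1
    have : σ * (dt q p t * (r.2 - t.2) + dt p r t * (q.2 - t.2) + dt r q t * (p.2 - t.2)) = 0 := by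
      rw [e', mul_zero]
    nlinarith

theorem nd {p q r : ℝ × ℝ} (σ : ℝ) (h1 : σ * p.2 < σ * q.2) (h2 : σ * p.2 < σ * r.2)
    (n1 : r ∉ segment ℝ p q) (n2 : q ∉ segment ℝ p r) : dt p q r ≠ 0 := by
  intro e
  rcases le_total (σ * r.2) (σ * q.2) with c | c
  · refine n1 (mem_seg (σ * q.2 - σ * r.2) (σ * r.2 - σ * p.2) (by linarith) (by linarith)
      (by linarith) ?_ (by ring))
    unfold dt at e
    linear_combination (-σ) * e
  · refine n2 (mem_seg (σ * r.2 - σ * q.2) (σ * q.2 - σ * p.2) (by linarith) (by linarith)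
      (by linarith) ?_ (by ring))
    unfold dt at e
    linear_combination σ * e

theorem fan {p a b c d : ℝ × ℝ} (σ ε : ℝ) (ha : σ * p.2 < σ * a.2) (hb : σ * p.2 < σ * b.2)
    (hc : σ * p.2 < σ * c.2) (hd : σ * p.2 < σ * d.2) (h1 : 0 < ε * dt p a b)
    (h2 : 0 < ε * dt p b c) (h3 : 0 < ε * dt p c d) : 0 < ε * dt p a d := by
  have k : ∀ {a b c : ℝ × ℝ}, σ * p.2 < σ * a.2 → σ * p.2 < σ * b.2 → σ * p.2 < σ * c.2 →
      0 < ε * dt p a b → 0 < ε * dt p b c → 0 < ε * dt p a c := by
    intro a b c ha hb hc h1 h2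
    have e : (σ * b.2 - σ * p.2) * (ε * dt p a c) = (σ * c.2 - σ * p.2) * (ε * dt p a b) +
        (σ * a.2 - σ * p.2) * (ε * dt p b c) := by unfold dt; ring
    have := mul_pos (sub_pos.2 hc) h1
    have := mul_pos (sub_pos.2 ha) h2
    exact pos_of_mul_pos_of_pos_left' (sub_pos.2 hb) (by linarith)
  exact k ha hc hd (k ha hb hc h1 h2) h3
where pos_of_mul_pos_of_pos_left' {a b : ℝ} (ha : 0 < a) (h : 0 < a * b) : 0 < b :=
  (mul_pos_iff_of_pos_left ha).1 h

theorem step {P Q R S : ℝ × ℝ} (σ ε : ℝ) (d1 : 0 < ε * dt P Q R) (d2 : 0 < ε * dt Q R S)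
    (hb : σ * Q.2 < σ * R.2) (hab : σ * R.2 ≤ σ * P.2) (hc : σ * S.2 < σ * R.2)
    (dis : Dj P Q R S) :
    (σ * P.2 - σ * Q.2) * (ε * dt Q R S) < (σ * S.2 - σ * Q.2) * (ε * dt P Q R) := by
  have k : 0 < ε * dt P Q S := by
    by_contra c
    push Not at c
    have hD : 0 < ε * dt P Q R - ε * dt P Q S := by linarith
    have e0 : (ε * dt Q R S) * (σ * P.2 - σ * Q.2) = (ε * dt P Q R) * (σ * S.2 - σ * Q.2)
      - (ε * dt P Q S) * (σ * R.2 - σ * Q.2) := by unfold dt; ring
    have e1 : 0 ≤ ε * dt P Q R - ε * dt P Q S - ε * dt Q R S := by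
      by_contra c'
      push Not at c'
      have := mul_lt_mul_of_pos_right (show ε * dt P Q R - ε * dt P Q S < ε * dt Q R S by linarith)
        (show 0 < σ * P.2 - σ * Q.2 by linarith)
      nlinarith [mul_nonneg (neg_nonneg.2 c) (sub_nonneg.2 hab), mul_pos d1 (sub_pos.2 hc),
        mul_nonneg d1.le (sub_nonneg.2 hab)]
    refine dis ((ε * dt P Q R * S.1 - ε * dt P Q S * R.1) / (ε * dt P Q R - ε * dt P Q S),
      (ε * dt P Q R * S.2 - ε * dt P Q S * R.2) / (ε * dt P Q R - ε * dt P Q S))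
      (mem_seg _ _ d2.le e1 (by linarith) ?_ ?_)
      (mem_seg (-(ε * dt P Q S)) (ε * dt P Q R) (by linarith) d1.le (by linarith) ?_ ?_)
    · rw [add_sub_cancel, mul_div_cancel₀ _ hD.ne']; unfold dt; ring
    · rw [add_sub_cancel, mul_div_cancel₀ _ hD.ne']; unfold dt; ring
    · rw [neg_add_eq_sub, mul_div_cancel₀ _ hD.ne']; ring
    · rw [neg_add_eq_sub, mul_div_cancel₀ _ hD.ne']; ring
  have e : (σ * S.2 - σ * Q.2) * (ε * dt P Q R) = (σ * P.2 - σ * Q.2) * (ε * dt Q R S) +
      (σ * R.2 - σ * Q.2) * (ε * dt P Q S) := by unfold dt; ring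
  have := mul_pos (sub_pos.2 hb) k
  linarith

theorem geo (H E : ℕ → ℝ) (m : ℕ) (hH : ∀ i ≤ m + 1, 0 < H i) (hE : ∀ i ≤ m, 0 < E i)
    (h0 : H 1 ≤ H 0)
    (st : ∀ i < m, H (i + 1) ≤ H i → H i * E (i + 1) < (H (i + 1) - H (i + 2)) * E i) :
    4 ^ m * (E m * H (m + 1) / H m) ≤ E 0 := by
  have : ∀ j ≤ m, H (j + 1) ≤ H j ∧ 4 ^ j * (E j * H (j + 1) / H j) ≤ E 0 := by
    intro j
    induction j with
    | zero =>
      intro _
      refine ⟨h0, ?_⟩
      rw [pow_zero, one_mul, div_le_iff₀ (hH 0 (by omega))]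
      exact mul_le_mul_of_nonneg_left h0 (hE 0 (by omega)).le
    | succ j ih =>
      intro hj
      obtain ⟨a, b⟩ := ih (by omega)
      have s := st j (by omega) a
      have p0 := hH j (by omega)
      have p1 := hH (j + 1) (by omega)
      have p2 := hH (j + 2) (by omega)
      have q0 := hE j (by omega)
      have q1 := hE (j + 1) (by omega)
      refine ⟨?_, le_trans ?_ b⟩
      · by_contra c
        push Not at c
        nlinarith [mul_pos p0 q1, mul_pos q0 (sub_pos.2 c)]
      · rw [pow_succ, mul_assoc]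
        refine mul_le_mul_of_nonneg_left ?_ (by positivity)
        rw [← mul_div_assoc, div_le_div_iff₀ p1 p0]
        nlinarith [mul_lt_mul_of_pos_right s p2, mul_nonneg q0.le (sq_nonneg (H (j + 1) - 2 * H (j + 2)))]
  exact (this m le_rfl).2

end Pool.Agent.H.MP_5a9264_co
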