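import Pool.Agent.H.MP_5a9264_co.A

set_option autoImplicit false

namespace Pool.Agent.H.MP_5a9264_co

open Set

def U (a b : ℕ) : Prop := (a % 4 = 0 ∧ (b = a + 1 ∨ b = a + 2 ∨ b = a + 4)) ∨
  (a % 4 = 1 ∧ (b = a + 3 ∨ b = a + 4)) ∨ (a % 4 = 2 ∧ b = a + 1) ∨ (a % 4 = 3 ∧ b = a + 1)

def Ad (a b : ℕ) : Prop := U a b ∨ U b a

structure Sys (n : ℕ) (p : ℕ → ℝ × ℝ) : Prop where
  dis : ∀ a b c d, a < n → b < n → c < n → d < n → Ad a b → Ad c d → a ≠ c → a ≠ d → b ≠ c →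
    b ≠ d → Dj (p a) (p b) (p c) (p d)
  off : ∀ a b c, a < n → b < n → c < n → Ad a b → Ad a c → b ≠ c → p c ∉ segment ℝ (p a) (p b)
  up : ∀ k, 4 * k + 4 < n → (-1) ^ k * (p (4 * k)).2 < (-1) ^ k * (p (4 * k + 1)).2 ∧
    (-1) ^ k * (p (4 * k + 1)).2 < (-1) ^ k * (p (4 * k + 4)).2 ∧
    (-1) ^ k * (p (4 * k + 2)).2 < (-1) ^ k * (p (4 * k)).2 ∧
    (-1) ^ k * (p (4 * k + 4)).2 < (-1) ^ k * (p (4 * k + 3)).2

variable {n : ℕ} {p : ℕ → ℝ × ℝ}

theorem Sys.dj (h : Sys n p) (a b c d : ℕ) (k : (a < n ∧ b < n ∧ c < n ∧ d < n) ∧ Ad a b ∧ Ad c d ∧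
    a ≠ c ∧ a ≠ d ∧ b ≠ c ∧ b ≠ d) : Dj (p a) (p b) (p c) (p d) :=
  h.dis a b c d k.1.1 k.1.2.1 k.1.2.2.1 k.1.2.2.2 k.2.1 k.2.2.1 k.2.2.2.1 k.2.2.2.2.1
    k.2.2.2.2.2.1 k.2.2.2.2.2.2

theorem Sys.mv (h : Sys n p) {x y z s : ℕ} (t : ℕ) (i : In' (p x) (p y) (p z) (p s))
    (a1 : Ad x y) (a2 : Ad y z) (a3 : Ad z x) (a4 : Ad s t)
    (k : (x < n ∧ y < n ∧ z < n ∧ s < n ∧ t < n) ∧ s ≠ x ∧ s ≠ y ∧ s ≠ z ∧ t ≠ x ∧ t ≠ y ∧ t ≠ z) :
    In' (p x) (p y) (p z) (p t) :=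
  i.mv (h.dj _ _ _ _ ⟨by omega, a4, a1, by omega⟩) (h.dj _ _ _ _ ⟨by omega, a4, a2, by omega⟩)
    (h.dj _ _ _ _ ⟨by omega, a4, a3, by omega⟩)

theorem Sys.ndg (h : Sys n p) {x y z : ℕ} (σ : ℝ) (h1 : σ * (p x).2 < σ * (p y).2)
    (h2 : σ * (p x).2 < σ * (p z).2) (a1 : Ad x y) (a2 : Ad x z)
    (k : x < n ∧ y < n ∧ z < n ∧ y ≠ z) : dt (p x) (p y) (p z) ≠ 0 :=
  nd σ h1 h2 (h.off _ _ _ k.1 k.2.1 k.2.2.1 a1 a2 k.2.2.2)
    (h.off _ _ _ k.1 k.2.2.1 k.2.1 a2 a1 k.2.2.2.symm)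

theorem Sys.turn (h : Sys n p) {k : ℕ} (hk : 4 * k + 8 < n) (ε : ℝ)
    (h0 : 0 < ε * dt (p (4 * k)) (p (4 * k + 1)) (p (4 * k + 4))) :
    0 < ε * dt (p (4 * (k + 1))) (p (4 * (k + 1) + 1)) (p (4 * (k + 1) + 4)) ∧
    0 < -ε * dt (p (4 * k)) (p (4 * (k + 1))) (p (4 * (k + 2))) := by
  obtain ⟨u1, u2, u3, u4⟩ := h.up k (by omega)
  obtain ⟨v1, v2, v3, v4⟩ := h.up (k + 1) (by omega)
  rw [show 4 * (k + 2) = 4 * k + 8 by ring]
  simp only [show 4 * (k + 1) = 4 * k + 4 by ring, add_assoc, Nat.reduceAdd] at *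
  have hs : (-1 : ℝ) ^ k = -(-1) ^ (k + 1) := by ring
  rw [hs] at u1 u2 u3 u4
  generalize (-1 : ℝ) ^ (k + 1) = σ at *
  have a01 : Ad (4 * k) (4 * k + 1) := by unfold Ad U; omega
  have a04 : Ad (4 * k) (4 * k + 4) := by unfold Ad U; omega
  have a14 : Ad (4 * k + 1) (4 * k + 4) := by unfold Ad U; omega
  have a15 : Ad (4 * k + 1) (4 * k + 5) := by unfold Ad U; omega
  have a45 : Ad (4 * k + 4) (4 * k + 5) := by unfold Ad U; omega
  have a48 : Ad (4 * k + 4) (4 * k + 8) := by unfold Ad U; omega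
  have a58 : Ad (4 * k + 5) (4 * k + 8) := by unfold Ad U; omega
  have a02 : Ad (4 * k) (4 * k + 2) := by unfold Ad U; omega
  have a23 : Ad (4 * k + 2) (4 * k + 3) := by unfold Ad U; omega
  have a87 : Ad (4 * k + 8) (4 * k + 7) := by unfold Ad U; omega
  have a76 : Ad (4 * k + 7) (4 * k + 6) := by unfold Ad U; omega
  have b0 : σ * (p (4 * k + 4)).2 < σ * (p (4 * k)).2 := by linarith
  have b1 : σ * (p (4 * k + 4)).2 < σ * (p (4 * k + 1)).2 := by linarith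
  have b8 : σ * (p (4 * k + 4)).2 < σ * (p (4 * k + 8)).2 := by linarith
  have U1 := unf (h.ndg σ b1 b0 a14.symm a04.symm (by omega))
    (h.ndg σ b1 v1 a14.symm a45 (by omega))
    (h.dj _ _ _ _ ⟨by omega, a04.symm, a15, by omega⟩)
    (h.dj _ _ _ _ ⟨by omega, a45, a01.symm, by omega⟩)
    (fun i => absurd ((h.mv _ (h.mv _ (h.mv _ i a14.symm a01.symm a04 a58 (by omega))
      a14.symm a01.symm a04 a87 (by omega)) a14.symm a01.symm a04 a76 (by omega)).bd σ b1.le b0.le)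
      (by linarith))
    (fun i => absurd ((h.mv _ (h.mv _ i a14.symm a15 a45.symm a02 (by omega))
      a14.symm a15 a45.symm a23 (by omega)).bd σ b1.le v1.le) (by linarith))
  have U2 := unf (h.ndg σ v1 b1 a45 a14.symm (by omega))
    (h.ndg σ v1 b8 a45 a48 (by omega))
    (h.dj _ _ _ _ ⟨by omega, a14.symm, a58, by omega⟩)
    (h.dj _ _ _ _ ⟨by omega, a48, a15.symm, by omega⟩)
    (fun i => absurd ((h.mv _ (h.mv _ i a45 a15.symm a14 a87 (by omega))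
      a45 a15.symm a14 a76 (by omega)).bd σ v1.le b1.le) (by linarith))
    (fun i => absurd ((h.mv _ (h.mv _ (h.mv _ i a45 a58 a48.symm a01.symm (by omega))
      a45 a58 a48.symm a02 (by omega)) a45 a58 a48.symm a23 (by omega)).bd σ v1.le b8.le)
      (by linarith))
  have e1 : dt (p (4 * k + 4)) (p (4 * k + 1)) (p (4 * k)) =
      -dt (p (4 * k)) (p (4 * k + 1)) (p (4 * k + 4)) := by unfold dt; ring
  have e2 : dt (p (4 * k + 4)) (p (4 * k + 5)) (p (4 * k + 1)) =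
      -dt (p (4 * k + 4)) (p (4 * k + 1)) (p (4 * k + 5)) := by unfold dt; ring
  have e3 : dt (p (4 * k + 4)) (p (4 * k)) (p (4 * k + 1)) =
      dt (p (4 * k)) (p (4 * k + 1)) (p (4 * k + 4)) := by unfold dt; ring
  have e4 : dt (p (4 * k)) (p (4 * k + 4)) (p (4 * k + 8)) =
      -dt (p (4 * k + 4)) (p (4 * k)) (p (4 * k + 8)) := by unfold dt; ring
  have sg : ∀ x y : ℝ, 0 < ε * x → -x * y < 0 → 0 < ε * y := fun x y a b => by
    by_contra c
    push Not at c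
    have : 0 < x * y := by linarith
    have := mul_pos a this
    nlinarith [mul_nonneg (neg_nonneg.2 c) (mul_self_nonneg x)]
  rw [e1] at U1
  rw [e2] at U2
  have c1 := sg _ _ h0 U1
  have c2 := sg _ _ c1 U2
  refine ⟨c2, ?_⟩
  rw [e4, neg_mul_neg]
  exact fan σ ε b0 b1 v1 b8 (e3 ▸ h0) c1 c2

theorem Sys.turns (h : Sys n p) (hn : 4 < n) : ∃ ε : ℝ, (ε = 1 ∨ ε = -1) ∧ ∀ k, 4 * k + 8 < n →
    0 < ε * dt (p (4 * k)) (p (4 * (k + 1))) (p (4 * (k + 2))) := by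
  obtain ⟨u1, u2, _, _⟩ := h.up 0 (by omega)
  have n0 := h.ndg _ u1 (u1.trans u2) (by unfold Ad U; omega) (by unfold Ad U; omega) (by omega)
  have : ∃ ε : ℝ, (ε = 1 ∨ ε = -1) ∧ 0 < ε * dt (p (4 * 0)) (p (4 * 0 + 1)) (p (4 * 0 + 4)) := by
    rcases lt_or_gt_of_ne n0 with a | a
    · exact ⟨-1, Or.inr rfl, by linarith⟩
    · exact ⟨1, Or.inl rfl, by linarith⟩
  obtain ⟨ε, he, h0⟩ := this
  have : ∀ k, 4 * k + 4 < n → 0 < ε * dt (p (4 * k)) (p (4 * k + 1)) (p (4 * k + 4)) := by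
    intro k
    induction k with
    | zero => exact fun _ => h0
    | succ k ih => exact fun hk => (h.turn (by omega) ε (ih (by omega))).1
  exact ⟨-ε, by rcases he with rfl | rfl <;> simp,
    fun k hk => (h.turn hk ε (this k (by omega))).2⟩

theorem Sys.main (h : Sys n p) (q : ℕ → ℤ × ℤ) (hq : ∀ a < n, p a = (((q a).1 : ℝ), ((q a).2 : ℝ)))
    {m : ℕ} (hm : 8 * m + 8 < n) {x0 x1 y0 y1 : ℝ}
    (hb : ∀ a < n, (x0 ≤ (p a).1 ∧ (p a).1 ≤ x1) ∧ y0 ≤ (p a).2 ∧ (p a).2 ≤ y1) :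
    (2 : ℝ) ^ m ≤ 2 * ((x1 - x0) * (y1 - y0)) := by
  obtain ⟨ε, he, ht⟩ := h.turns (by omega)
  let H : ℕ → ℝ := fun k => (-1) ^ k * (p (4 * (k + 1))).2 - (-1) ^ k * (p (4 * k)).2
  let E : ℕ → ℝ := fun k => ε * dt (p (4 * k)) (p (4 * (k + 1))) (p (4 * (k + 2)))
  have one : ∀ z : ℤ, (0 : ℝ) < z → (1 : ℝ) ≤ z := fun z hz => by
    have : 0 < z := by exact_mod_cast hz
    exact_mod_cast this
  have sq : ∀ k : ℕ, (-1 : ℝ) ^ k = 1 ∨ (-1 : ℝ) ^ k = -1 := fun k => neg_one_pow_eq_or ℝ k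
  have H1 : ∀ k ≤ 2 * m + 1, 1 ≤ H k ∧ H k ≤ y1 - y0 := by
    intro k hk
    obtain ⟨u1, u2, _, _⟩ := h.up k (by omega)
    have a := hb (4 * k) (by omega)
    have b := hb (4 * (k + 1)) (by omega)
    constructor
    · have := one ((-1) ^ k * (q (4 * (k + 1))).2 - (-1) ^ k * (q (4 * k)).2)
      simp only [H]
      rw [← mul_add_one 4 k] at u2
      rw [hq (4 * k) (by omega)] at u1 ⊢
      rw [hq (4 * (k + 1)) (by omega)] at u2 ⊢
      push_cast at this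
      exact this (by linarith)
    · simp only [H]
      rcases sq k with c | c <;> rw [c] <;> linarith [a.2.1, a.2.2, b.2.1, b.2.2]
  have E1 : ∀ k ≤ 2 * m, 1 ≤ E k ∧ E k ≤ 2 * ((x1 - x0) * (y1 - y0)) := by
    intro k hk
    have t := ht k (by omega)
    have a := hb (4 * k) (by omega)
    have b := hb (4 * (k + 1)) (by omega)
    have c := hb (4 * (k + 2)) (by omega)
    constructor
    · simp only [E]
      rw [hq (4 * k) (by omega), hq (4 * (k + 1)) (by omega), hq (4 * (k + 2)) (by omega)] at t ⊢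
      unfold dt at t ⊢
      simp only at t ⊢
      rcases he with rfl | rfl
      · rw [one_mul] at t ⊢
        norm_cast at t ⊢
      · rw [neg_one_mul] at t ⊢
        norm_cast at t ⊢
    · have k1 : ∀ u v : ℝ, |u| ≤ x1 - x0 → |v| ≤ y1 - y0 → |u * v| ≤ (x1 - x0) * (y1 - y0) :=
        fun u v a b => by rw [abs_mul]; exact mul_le_mul a b (abs_nonneg _) ((abs_nonneg _).trans a)
      have l1 := abs_le.1 (k1 ((p (4 * (k + 1))).1 - (p (4 * k)).1)
        ((p (4 * (k + 2))).2 - (p (4 * k)).2) (abs_le.2 ⟨by linarith [a.1.2, b.1.1],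
          by linarith [a.1.1, b.1.2]⟩) (abs_le.2 ⟨by linarith [a.2.2, c.2.1],
          by linarith [a.2.1, c.2.2]⟩))
      have l2 := abs_le.1 (k1 ((p (4 * (k + 2))).1 - (p (4 * k)).1)
        ((p (4 * (k + 1))).2 - (p (4 * k)).2) (abs_le.2 ⟨by linarith [a.1.2, c.1.1],
          by linarith [a.1.1, c.1.2]⟩) (abs_le.2 ⟨by linarith [a.2.2, b.2.1],
          by linarith [a.2.1, b.2.2]⟩))
      simp only [E]
      unfold dt
      rcases he with rfl | rfl <;> linarith [l1.1, l1.2, l2.1, l2.2]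
  have dj : ∀ k, k + 1 ≤ 2 * m → Dj (p (4 * k)) (p (4 * (k + 1))) (p (4 * (k + 2))) (p (4 * (k + 3))) :=
    fun k hk => h.dj _ _ _ _ (by unfold Ad U; omega)
  have fw : ∀ k, k + 1 ≤ 2 * m → H (k + 1) ≤ H k →
      H k * E (k + 1) < (H (k + 1) - H (k + 2)) * E k := by
    intro k hk c
    have a1 := (H1 (k + 1) (by omega)).1
    have a2 := (H1 (k + 2) (by omega)).1
    simp only [H, E, pow_succ, add_assoc, Nat.reduceAdd] at *
    have := step (-(-1) ^ k) ε (ht k (by omega)) (ht (k + 1) (by omega)) (by linarith)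
      (by linarith) (by linarith) (dj k hk)
    simp only [add_assoc, Nat.reduceAdd] at this
    linarith
  have bw : ∀ k, k + 1 ≤ 2 * m → H (k + 1) ≤ H (k + 2) →
      H (k + 2) * E k < (H (k + 1) - H k) * E (k + 1) := by
    intro k hk c
    have a1 := (H1 (k + 1) (by omega)).1
    have a2 := (H1 k (by omega)).1
    have t1 := ht k (by omega)
    have t2 := ht (k + 1) (by omega)
    have rv : ∀ a b c : ℝ × ℝ, ε * dt a b c = -ε * dt c b a := fun a b c => by unfold dt; ring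
    simp only [H, E, pow_succ, add_assoc, Nat.reduceAdd] at *
    rw [rv] at t1 t2
    have := step ((-1) ^ k) (-ε) t2 t1 (by linarith) (by linarith) (by linarith) (dj k hk).s.l.r
    rw [rv (p (4 * k)), rv (p (4 * (k + 1)))]
    linarith
  have hy : 1 ≤ y1 - y0 := (H1 0 (by omega)).1.trans (H1 0 (by omega)).2
  have hx : 1 ≤ x1 - x0 := by
    by_contra c
    push Not at c
    have k : ∀ a < n, (q a).1 = (q 0).1 := fun a ha => by
      have a1 := hb a ha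
      have a2 := hb 0 (by omega)
      rw [hq a ha] at a1
      rw [hq 0 (by omega)] at a2
      have b1 : ((q a).1 : ℝ) < (q 0).1 + 1 := by linarith [a1.1.2, a2.1.1]
      have b2 : ((q 0).1 : ℝ) < (q a).1 + 1 := by linarith [a1.1.1, a2.1.2]
      have : (q a).1 < (q 0).1 + 1 := by exact_mod_cast b1
      have : (q 0).1 < (q a).1 + 1 := by exact_mod_cast b2
      omega
    have := ht 0 (by omega)
    rw [hq _ (by omega), hq (4 * (0 + 1)) (by omega), hq (4 * (0 + 2)) (by omega), k _ (by omega),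
      k (4 * (0 + 1)) (by omega), k (4 * (0 + 2)) (by omega)] at this
    simp [dt] at this
  have fin : ∀ e a b c : ℝ, 1 ≤ e → 1 ≤ a → 0 < b → b ≤ y1 - y0 →
      c ≤ 2 * ((x1 - x0) * (y1 - y0)) → 4 ^ m * (e * a / b) ≤ c →
      (2 : ℝ) ^ m ≤ 2 * ((x1 - x0) * (y1 - y0)) := by
    intro e a b c h1 h2 h3 h4 h5 h6
    have k1 : 1 / (y1 - y0) ≤ e * a / b :=
      div_le_div₀ (by positivity) (by nlinarith) h3 h4
    have k2 : (4 : ℝ) ^ m * (1 / (y1 - y0)) ≤ 2 * ((x1 - x0) * (y1 - y0)) :=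
      (mul_le_mul_of_nonneg_left k1 (by positivity)).trans (h6.trans h5)
    rw [mul_one_div, div_le_iff₀ (by linarith)] at k2
    have k3 : (4 : ℝ) ^ m = (2 ^ m) ^ 2 := by rw [← pow_mul, mul_comm, pow_mul]; norm_num
    refine le_of_sq_le_sq' ?_ (by positivity)
    rw [← k3]
    have : 0 ≤ (x1 - x0) * (y1 - y0) ^ 2 := by positivity
    nlinarith
  rcases le_total (H (m + 1)) (H m) with c | c
  · have := geo (fun i => H (m + i)) (fun i => E (m + i)) m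
      (fun i hi => by linarith [(H1 (m + i) (by omega)).1])
      (fun i hi => by linarith [(E1 (m + i) (by omega)).1]) c
      (fun i hi d => fw (m + i) (by omega) d)
    exact fin _ _ _ _ (E1 _ (by omega)).1 (H1 _ (by omega)).1
      (by linarith [(H1 (m + m) (by omega)).1]) (H1 _ (by omega)).2 (E1 _ (by omega)).2 this
  · have := geo (fun i => H (m + 1 - i)) (fun i => E (m - i)) m
      (fun i hi => by linarith [(H1 (m + 1 - i) (by omega)).1])
      (fun i hi => by linarith [(E1 (m - i) (by omega)).1]) c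
      (fun i hi d => by
        rw [show m + 1 - (i + 1) = m - (i + 1) + 1 by omega,
          show m + 1 - i = m - (i + 1) + 2 by omega] at d ⊢
        rw [show m + 1 - (i + 2) = m - (i + 1) by omega, show m - i = m - (i + 1) + 1 by omega]
        exact bw _ (by omega) d)
    exact fin _ _ _ _ (E1 _ (by omega)).1 (H1 _ (by omega)).1
      (by linarith [(H1 (m + 1 - m) (by omega)).1]) (H1 _ (by omega)).2 (E1 _ (by omega)).2 this
where le_of_sq_le_sq' {a b : ℝ} (h : a ^ 2 ≤ b ^ 2) (hb : 0 ≤ b) : a ≤ b :=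
  (abs_le_of_sq_le_sq' h hb).2

end Pool.Agent.H.MP_5a9264_co
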