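import Pool.Agent.H.MP_5a9264_co.B

set_option autoImplicit false

namespace Pool.Agent.H.MP_5a9264_co

open Set

/-- A grid point as a point of the plane. -/
def toR (z : ℤ × ℤ) : ℝ × ℝ := ((z.1 : ℝ), (z.2 : ℝ))

/-- Upward planar straight-line grid drawing of the digraph with edge relation `E`. -/
structure Drawing {n : ℕ} (E : Fin n → Fin n → Prop) where
  pos : Fin n → ℤ × ℤ
  inj : Function.Injective pos
  up : ∀ u v, E u v → (pos u).2 < (pos v).2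
  planar : ∀ u v u' v', E u v → E u' v' → (u, v) ≠ (u', v') →
    ∀ z ∈ segment ℝ (toR (pos u)) (toR (pos v)) ∩ segment ℝ (toR (pos u')) (toR (pos v')),
      ∃ w, (w = u ∨ w = v) ∧ (w = u' ∨ w = v') ∧ z = toR (pos w)

/-- The underlying graph is outerplanar: the vertices can be placed in a row (equivalently on a
circle) so that no two edges, drawn as chords, cross. -/
def Outerplanar {n : ℕ} (E : Fin n → Fin n → Prop) : Prop :=
  ∃ f : Fin n → ℤ, Function.Injective f ∧ ∀ a b c d, (E a b ∨ E b a) → (E c d ∨ E d c) →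
    ¬ (f a < f c ∧ f c < f b ∧ f b < f d)

def bx (c : ℕ) : ℤ := if c = 0 then -1 else if c = 1 then 3 else if c = 2 then -1 else 10
def bY (c : ℕ) : ℤ := if c = 0 then -1 else if c = 1 then 2 else if c = 2 then -2 else 4

def ps (v : ℕ) : ℤ × ℤ := ((-5) ^ (v / 4) * bx (v % 4), (-3) ^ (v / 4) * bY (v % 4))

def TT (k : ℕ) (z : ℝ × ℝ) : ℝ × ℝ := ((-5) ^ k * z.1, (-3) ^ k * z.2)

theorem ps_add (k c : ℕ) : ps (4 * k + c) = ((-5) ^ k * (ps c).1, (-3) ^ k * (ps c).2) := by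
  unfold ps
  rw [show (4 * k + c) / 4 = k + c / 4 by omega, show (4 * k + c) % 4 = c % 4 by omega,
    pow_add, pow_add, mul_assoc, mul_assoc]

theorem R_add (k c : ℕ) : toR (ps (4 * k + c)) = TT k (toR (ps c)) := by
  rw [ps_add]; simp [toR, TT]

theorem TT_inj (k : ℕ) {z w : ℝ × ℝ} (h : TT k z = TT k w) : z = w := by
  obtain ⟨a, b⟩ := Prod.ext_iff.1 h
  exact Prod.ext (mul_left_cancel₀ (by positivity) a) (mul_left_cancel₀ (by positivity) b)

theorem TT_seg (k : ℕ) {A B z : ℝ × ℝ} (h : z ∈ segment ℝ (TT k A) (TT k B)) :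
    ∃ w ∈ segment ℝ A B, z = TT k w := by
  obtain ⟨a, b, ha, hb, hab, rfl⟩ := h
  refine ⟨_, ⟨a, b, ha, hb, hab, rfl⟩, ?_⟩
  ext <;> simp [TT] <;> ring

def dz (p q r : ℤ × ℤ) : ℤ := (q.1 - p.1) * (r.2 - p.2) - (q.2 - p.2) * (r.1 - p.1)

theorem dz_cast (p q r : ℤ × ℤ) : dt (toR p) (toR q) (toR r) = dz p q r := by
  simp [dt, dz, toR]

theorem share {A B D z : ℝ × ℝ} (h : dt A B D ≠ 0) (h1 : z ∈ segment ℝ A B)
    (h2 : z ∈ segment ℝ A D) : z = A := by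
  obtain ⟨a, b, _, _, hab, rfl⟩ := h1
  obtain ⟨c, d, _, _, hcd, e⟩ := h2
  obtain rfl : a = 1 - b := by linarith
  obtain rfl : c = 1 - d := by linarith
  obtain ⟨e1, e2⟩ := Prod.ext_iff.1 e
  simp only [Prod.fst_add, Prod.snd_add, Prod.smul_fst, Prod.smul_snd, smul_eq_mul] at e1 e2
  have : b * dt A B D = 0 := by
    unfold dt; linear_combination (D.1 - A.1) * e2 - (D.2 - A.2) * e1
  rw [(mul_eq_zero.1 this).resolve_right h]; simp

theorem sepr {A B C D z : ℝ × ℝ} (h : 0 < dt A B C * dt A B D) (h1 : z ∈ segment ℝ A B)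
    (h2 : z ∈ segment ℝ C D) : False := by
  obtain ⟨a, b, _, _, hab, rfl⟩ := h1
  obtain ⟨c, d, hc, hd, hcd, e⟩ := h2
  obtain rfl : a = 1 - b := by linarith
  obtain rfl : c = 1 - d := by linarith
  obtain ⟨e1, e2⟩ := Prod.ext_iff.1 e
  simp only [Prod.fst_add, Prod.snd_add, Prod.smul_fst, Prod.smul_snd, smul_eq_mul] at e1 e2
  have : (1 - d) * dt A B C + d * dt A B D = 0 := by
    unfold dt; linear_combination (B.1 - A.1) * e2 - (B.2 - A.2) * e1
  rcases mul_pos_iff.1 h with ⟨u, v⟩ | ⟨u, v⟩ <;> rcases hd.eq_or_lt with rfl | w <;> nlinarith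

instance (a b : ℕ) : Decidable (U a b) := by unfold U; infer_instance

theorem sy {A B z : ℝ × ℝ} (h : z ∈ segment ℝ A B) : z ∈ segment ℝ B A := by
  rwa [segment_symm]

def Ck (a b c d : ℕ) : Prop := (a = c ∧ b = d) ∨
    (a = c ∧ dz (ps a) (ps b) (ps d) ≠ 0) ∨ (a = d ∧ dz (ps a) (ps b) (ps c) ≠ 0) ∨
    (b = c ∧ dz (ps b) (ps a) (ps d) ≠ 0) ∨ (b = d ∧ dz (ps b) (ps a) (ps c) ≠ 0) ∨
    0 < dz (ps a) (ps b) (ps c) * dz (ps a) (ps b) (ps d) ∨
    0 < dz (ps c) (ps d) (ps a) * dz (ps c) (ps d) (ps b)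

instance (a b c d : ℕ) : Decidable (Ck a b c d) := by unfold Ck; infer_instance

def Ck2 (a b : ℕ) : Prop := ∀ c < 16, ∀ d < 20, U c d → Ck a b c d

instance (a b : ℕ) : Decidable (Ck2 a b) := by unfold Ck2; infer_instance

theorem chk : ∀ a < 4, ∀ b < 6, U a b → Ck2 a b := by
  decide +kernel

def Ct (a b : ℕ) : Prop := (|(ps a).1| ≤ 15 ∧ |(ps b).1| ≤ 15 ∧ |(ps a).2| ≤ 6 ∧
    |(ps b).2| ≤ 6 ∧ (ps a).2 ≠ (ps b).2) ∧ ∃ p ∈ ([-1, 0, 1, 2, 3] : List ℤ),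
    ∃ q ∈ ([-4, -3, -1, 0, 1, 2] : List ℤ),
      1 ≤ p * (ps a).1 + q * (ps a).2 ∧ 1 ≤ p * (ps b).1 + q * (ps b).2

instance (a b : ℕ) : Decidable (Ct a b) := by unfold Ct; infer_instance

theorem cert : ∀ a < 4, ∀ b < 6, U a b → Ct a b := by
  decide +kernel

theorem pl0 {a b c d : ℕ} (ha : a < 4) (e : U a b) (e' : U c d) (ne : ¬ (a = c ∧ b = d))
    {z : ℝ × ℝ} (z1 : z ∈ segment ℝ (toR (ps a)) (toR (ps b)))
    (z2 : z ∈ segment ℝ (toR (ps c)) (toR (ps d))) :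
    ∃ w, (w = a ∨ w = b) ∧ (w = c ∨ w = d) ∧ z = toR (ps w) := by
  have hb : b < 6 := by unfold U at e; omega
  by_cases hc : c < 16
  · have c0 : ∀ {p q r : ℤ × ℤ}, dz p q r ≠ 0 → dt (toR p) (toR q) (toR r) ≠ 0 := fun h => by
      rw [dz_cast]; exact_mod_cast h
    rcases chk a ha b hb e c hc d (by unfold U at e'; omega) e' with
      k | ⟨rfl, k⟩ | ⟨rfl, k⟩ | ⟨rfl, k⟩ | ⟨rfl, k⟩ | k | k
    · exact absurd k ne
    · exact ⟨a, Or.inl rfl, Or.inl rfl, share (c0 k) z1 z2⟩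
    · exact ⟨a, Or.inl rfl, Or.inr rfl, share (c0 k) z1 (sy z2)⟩
    · exact ⟨b, Or.inr rfl, Or.inl rfl, share (c0 k) (sy z1) z2⟩
    · exact ⟨b, Or.inr rfl, Or.inr rfl, share (c0 k) (sy z1)
        (sy z2)⟩
    · exact (sepr (by rw [dz_cast, dz_cast]; exact_mod_cast k) z1 z2).elim
    · exact (sepr (by rw [dz_cast, dz_cast]; exact_mod_cast k) z2 z1).elim
  · exfalso
    obtain ⟨k, hk⟩ : ∃ k, k = c / 4 := ⟨_, rfl⟩
    have u : U (c - 4 * k) (d - 4 * k) := by unfold U at e' ⊢; omega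
    rw [show c = 4 * k + (c - 4 * k) by omega,
      show d = 4 * k + (d - 4 * k) by unfold U at e'; omega, R_add, R_add] at z2
    obtain ⟨w, ⟨s, t, hs, ht, hst, rfl⟩, rfl⟩ := TT_seg k z2
    obtain ⟨⟨a1, a2, a3, a4, _⟩, _⟩ := cert a ha b hb e
    obtain ⟨_, p, hp, q, hq, b1, b2⟩ := cert _ (by omega) _ (by unfold U at u; omega) u
    obtain ⟨s', t', hs', ht', hst', f⟩ := z1
    obtain ⟨f1, f2⟩ := Prod.ext_iff.1 f
    generalize ps (c - 4 * k) = C at *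
    generalize ps (d - 4 * k) = D at *
    simp only [TT, toR, Prod.fst_add, Prod.snd_add, Prod.smul_fst, Prod.smul_snd,
      smul_eq_mul] at f1 f2
    have k1 : ∀ (x y : ℤ) (M : ℤ), |x| ≤ M → |y| ≤ M → |s' * x + t' * y| ≤ M := by
      intro x y M h1 h2
      have h1' : |(x : ℝ)| ≤ M := by exact_mod_cast h1
      have h2' : |(y : ℝ)| ≤ M := by exact_mod_cast h2
      obtain ⟨l1, l2⟩ := abs_le.1 h1'
      obtain ⟨l3, l4⟩ := abs_le.1 h2'
      obtain rfl : s' = 1 - t' := by linarith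
      exact abs_le.2 ⟨by nlinarith, by nlinarith⟩
    have g1 := k1 _ _ _ a1 a2
    have g2 := k1 _ _ _ a3 a4
    rw [f1, abs_mul, abs_pow] at g1
    rw [f2, abs_mul, abs_pow] at g2
    have p5 : (5 : ℝ) ^ 4 ≤ |(-5 : ℝ)| ^ k := by
      rw [abs_neg, abs_of_pos (by norm_num)]; exact pow_le_pow_right₀ (by norm_num) (by omega)
    have p3 : (3 : ℝ) ^ 4 ≤ |(-3 : ℝ)| ^ k := by
      rw [abs_neg, abs_of_pos (by norm_num)]; exact pow_le_pow_right₀ (by norm_num) (by omega)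
    have g3 : |s * C.1 + t * D.1| ≤ 1 / 10 := by
      push_cast at g1; nlinarith [abs_nonneg (s * C.1 + t * D.1)]
    have g4 : |s * C.2 + t * D.2| ≤ 1 / 10 := by
      push_cast at g2; nlinarith [abs_nonneg (s * C.2 + t * D.2)]
    obtain ⟨l1, l2⟩ := abs_le.1 g3
    obtain ⟨l3, l4⟩ := abs_le.1 g4
    obtain ⟨m1, m2⟩ : -3 ≤ p ∧ p ≤ 3 := by simp at hp; omega
    obtain ⟨m3, m4⟩ : -4 ≤ q ∧ q ≤ 4 := by simp at hq; omega
    have m1' : (-3 : ℝ) ≤ p := by exact_mod_cast m1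
    have m2' : (p : ℝ) ≤ 3 := by exact_mod_cast m2
    have m3' : (-4 : ℝ) ≤ q := by exact_mod_cast m3
    have m4' : (q : ℝ) ≤ 4 := by exact_mod_cast m4
    have b1' : (1 : ℝ) ≤ p * C.1 + q * C.2 := by exact_mod_cast b1
    have b2' : (1 : ℝ) ≤ p * D.1 + q * D.2 := by exact_mod_cast b2
    have : 1 ≤ p * (s * C.1 + t * D.1) + q * (s * C.2 + t * D.2) := by nlinarith
    nlinarith

theorem pl {a b c d : ℕ} (e : U a b) (e' : U c d) (ne : ¬ (a = c ∧ b = d))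
    {z : ℝ × ℝ} (z1 : z ∈ segment ℝ (toR (ps a)) (toR (ps b)))
    (z2 : z ∈ segment ℝ (toR (ps c)) (toR (ps d))) :
    ∃ w, (w = a ∨ w = b) ∧ (w = c ∨ w = d) ∧ z = toR (ps w) := by
  wlog h : a / 4 ≤ c / 4 generalizing a b c d
  · obtain ⟨w, x, y, k⟩ := this e' e (by omega) z2 z1 (by omega)
    exact ⟨w, y, x, k⟩
  obtain ⟨k, hk⟩ : ∃ k, k = a / 4 := ⟨_, rfl⟩
  have l1 : a < b := by unfold U at e; omega
  have l2 : c < d := by unfold U at e'; omega
  rw [show a = 4 * k + (a - 4 * k) by omega, show b = 4 * k + (b - 4 * k) by omega,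
    R_add, R_add] at z1
  rw [show c = 4 * k + (c - 4 * k) by omega, show d = 4 * k + (d - 4 * k) by omega,
    R_add, R_add] at z2
  obtain ⟨w, w1, rfl⟩ := TT_seg k z1
  obtain ⟨w', w2, f⟩ := TT_seg k z2
  obtain rfl := TT_inj k f
  obtain ⟨x, x1, x2, rfl⟩ := pl0 (by omega) (by unfold U at e ⊢; omega)
    (by unfold U at e' ⊢; omega) (by omega) w1 w2
  exact ⟨4 * k + x, by omega, by omega, (R_add k x).symm⟩

theorem hne {a b : ℕ} (e : U a b) : (ps a).2 ≠ (ps b).2 := by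
  obtain ⟨k, hk⟩ : ∃ k, k = a / 4 := ⟨_, rfl⟩
  have u : U (a - 4 * k) (b - 4 * k) := by unfold U at e ⊢; omega
  rw [show a = 4 * k + (a - 4 * k) by omega,
    show b = 4 * k + (b - 4 * k) by unfold U at e; omega, ps_add, ps_add]
  exact fun h => (cert _ (by omega) _ (by unfold U at u; omega) u).1.2.2.2.2
    (mul_left_cancel₀ (by positivity) h)

theorem ps_inj {a b : ℕ} (h : ps a = ps b) : a = b := by
  wlog c : a / 4 ≤ b / 4 generalizing a b
  · exact (this h.symm (by omega)).symm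
  have e := congrArg Prod.snd h
  obtain ⟨d, hd⟩ := Nat.exists_eq_add_of_le c
  simp only [ps] at e
  rw [hd, pow_add, mul_assoc] at e
  have e' := mul_left_cancel₀ (by positivity) e
  rcases d with _ | d
  · rw [pow_zero, one_mul] at e'
    unfold bY at e'
    split_ifs at e' <;> omega
  · rw [pow_succ, mul_right_comm] at e'
    generalize (-3) ^ d * bY (b % 4) = t at e'
    unfold bY at e'
    split_ifs at e' <;> omega

def Ed (a b : ℕ) : Prop := Ad a b ∧ (ps a).2 < (ps b).2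

theorem Ad.ed {a b : ℕ} (h : Ad a b) : Ed a b ∨ Ed b a := by
  have : (ps a).2 ≠ (ps b).2 := h.elim hne fun e => (hne e).symm
  rcases lt_or_gt_of_ne this with c | c
  · exact Or.inl ⟨h, c⟩
  · exact Or.inr ⟨h.symm, c⟩

def draw (n : ℕ) : Drawing fun u v : Fin n => Ed u v where
  pos u := ps u
  inj _ _ h := Fin.ext (ps_inj h)
  up _ _ e := e.2
  planar u v u' v' e e' ne z := by
    rintro ⟨a, b⟩
    have n1 : ¬ (u.val = u'.val ∧ v.val = v'.val) := fun c =>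
      ne (Prod.ext (Fin.ext c.1) (Fin.ext c.2))
    have n2 : ¬ (u.val = v'.val ∧ v.val = u'.val) := fun c => by
      have := e.2
      rw [c.1, c.2] at this
      exact lt_asymm this e'.2
    have : ∃ w, (w = u.val ∨ w = v.val) ∧ (w = u'.val ∨ w = v'.val) ∧ z = toR (ps w) := by
      rcases e.1 with c | c <;> rcases e'.1 with d | d
      · exact pl c d n1 a b
      · obtain ⟨w, x, y, k⟩ := pl c d n2 a (sy b)
        exact ⟨w, x, y.symm, k⟩
      · obtain ⟨w, x, y, k⟩ := pl c d (by omega) (sy a) b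
        exact ⟨w, x.symm, y, k⟩
      · obtain ⟨w, x, y, k⟩ := pl c d (by omega) (sy a) (sy b)
        exact ⟨w, x.symm, y.symm, k⟩
    obtain ⟨w, rfl | rfl, y, k⟩ := this
    · exact ⟨u, Or.inl rfl, y.imp Fin.ext Fin.ext, k⟩
    · exact ⟨v, Or.inr rfl, y.imp Fin.ext Fin.ext, k⟩

def ff (v : ℕ) : ℤ := if v % 4 = 1 then -(v / 4 : ℕ) - 1 else if v % 4 = 0 then 3 * (v / 4 : ℕ)
  else 3 * (v / 4 : ℕ) + (v % 4 : ℕ) - 1

theorem ff_U {a b : ℕ} (e : U a b) : ∃ k : ℤ, 0 ≤ k ∧ ((ff a = 3 * k ∧ ff b = -k - 1) ∨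
    (ff a = 3 * k ∧ ff b = 3 * k + 3) ∨ (ff a = -k - 1 ∧ ff b = 3 * k + 3) ∨ ff b = ff a + 1 ∨
    ff a = ff b + 1) := by
  refine ⟨(a / 4 : ℕ), by omega, ?_⟩
  unfold U at e
  unfold ff
  split_ifs <;> omega

theorem outer (n : ℕ) : Outerplanar fun u v : Fin n => Ed u v := by
  refine ⟨fun v => ff v, fun u v h => Fin.ext ?_, fun a b c d e e' => ?_⟩
  · simp only [ff] at h
    split_ifs at h <;> omega
  · have x : Ad a b := e.elim (·.1) (·.1.symm)
    have y : Ad c d := e'.elim (·.1) (·.1.symm)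
    rcases x with x | x <;> rcases y with y | y <;> obtain ⟨k, _, x⟩ := ff_U x <;>
      obtain ⟨l, _, y⟩ := ff_U y <;> simp only <;> omega

theorem lower {n : ℕ} (hn : 16 ≤ n) (D : Drawing fun u v : Fin n => Ed u v) {x0 x1 y0 y1 : ℝ}
    (hb : ∀ u, toR (D.pos u) ∈ Icc x0 x1 ×ˢ Icc y0 y1) :
    (2 : ℝ) ^ (n / 8) ≤ 8 * ((x1 - x0) * (y1 - y0)) := by
  let q : ℕ → ℤ × ℤ := fun a => if h : a < n then D.pos ⟨a, h⟩ else 0
  have hq : ∀ a (h : a < n), q a = D.pos ⟨a, h⟩ := fun a h => dif_pos h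
  have pla : ∀ a b c d : Fin n, Ad a b → Ad c d → ¬ (a = c ∧ b = d) → ¬ (a = d ∧ b = c) →
      ∀ z ∈ segment ℝ (toR (D.pos a)) (toR (D.pos b)), z ∈ segment ℝ (toR (D.pos c)) (toR (D.pos d))
      → ∃ w, (w = a ∨ w = b) ∧ (w = c ∨ w = d) ∧ z = toR (D.pos w) := by
    intro a b c d e e' n1 n2 z z1 z2
    rcases e.ed with x | x <;> rcases e'.ed with y | y
    · exact D.planar _ _ _ _ x y (by simpa using n1) z ⟨z1, z2⟩
    · obtain ⟨w, s, t, k⟩ := D.planar _ _ _ _ x y (by simpa using n2) z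
        ⟨z1, sy z2⟩
      exact ⟨w, s, t.symm, k⟩
    · obtain ⟨w, s, t, k⟩ := D.planar _ _ _ _ x y (by simp only [ne_eq, Prod.mk.injEq]; tauto) z
        ⟨sy z1, z2⟩
      exact ⟨w, s.symm, t, k⟩
    · obtain ⟨w, s, t, k⟩ := D.planar _ _ _ _ x y (by simp only [ne_eq, Prod.mk.injEq]; tauto) z
        ⟨sy z1, sy z2⟩
      exact ⟨w, s.symm, t.symm, k⟩
  have upk : ∀ k c c', 4 * k + c < n → 4 * k + c' < n → Ad (4 * k + c) (4 * k + c') →
      (ps c).2 < (ps c').2 →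
      (-1) ^ k * (toR (q (4 * k + c))).2 < (-1) ^ k * (toR (q (4 * k + c'))).2 := by
    intro k c c' h h' e l
    rw [hq _ h, hq _ h']
    rcases Nat.even_or_odd k with p | p
    · have := D.up ⟨_, h⟩ ⟨_, h'⟩ ⟨e, by
        rw [ps_add, ps_add]; exact mul_lt_mul_of_pos_left l (p.pow_pos (by norm_num))⟩
      rw [p.neg_one_pow, one_mul, one_mul]
      simp only [toR]; exact_mod_cast this
    · have := D.up ⟨_, h'⟩ ⟨_, h⟩ ⟨e.symm, by
        rw [ps_add, ps_add]; exact mul_lt_mul_of_neg_left l (p.pow_neg (by norm_num))⟩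
      rw [p.neg_one_pow, neg_one_mul, neg_one_mul, neg_lt_neg_iff]
      simp only [toR]; exact_mod_cast this
  have S : Sys n fun a => toR (q a) := by
    refine ⟨fun a b c d ha hb hc hd e e' n1 n2 n3 n4 z z1 z2 => ?_,
      fun a b c ha hb hc e e' n1 z => ?_, fun k hk => ⟨upk k 0 1 (by omega) (by omega)
        (by unfold Ad U; omega) (by decide), upk k 1 4 (by omega) (by omega)
        (by unfold Ad U; omega) (by decide), upk k 2 0 (by omega) (by omega)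
        (by unfold Ad U; omega) (by decide), upk k 4 3 (by omega) (by omega)
        (by unfold Ad U; omega) (by decide)⟩⟩
    · simp only [hq _ ha, hq _ hb, hq _ hc, hq _ hd] at z1 z2
      obtain ⟨w, s, t, _⟩ := pla ⟨a, ha⟩ ⟨b, hb⟩ ⟨c, hc⟩ ⟨d, hd⟩ e e' (by simp [n1]) (by simp [n2])
        z z1 z2
      rcases s with rfl | rfl <;> simp only [Fin.mk.injEq] at t <;> omega
    · simp only [hq _ ha, hq _ hb, hq _ hc] at z
      have n2 : a ≠ c := by unfold Ad U at e'; omega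
      obtain ⟨w, s, t, k⟩ := pla ⟨a, ha⟩ ⟨b, hb⟩ ⟨a, ha⟩ ⟨c, hc⟩ e e' (by simp [n1]) (by simp [n2])
        _ z (right_mem_segment _ _ _)
      have : D.pos ⟨c, hc⟩ = D.pos w := by
        obtain ⟨k1, k2⟩ := Prod.ext_iff.1 k
        simp only [toR] at k1 k2
        exact Prod.ext (by exact_mod_cast k1) (by exact_mod_cast k2)
      obtain rfl := D.inj this
      simp only [Fin.mk.injEq] at s
      omega
  have := S.main q (fun _ _ => rfl) (m := n / 8 - 2) (by omega) (x0 := x0) (x1 := x1) (y0 := y0)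
    (y1 := y1) fun a ha => by rw [hq a ha]; exact hb _
  rw [show n / 8 = n / 8 - 2 + 2 by omega, pow_add]
  linarith

theorem final (n : ℕ) (hn : 16 ≤ n) : ∃ E : Fin n → Fin n → Prop, Outerplanar E ∧
    (∀ v, ∃ u, E u v ∨ E v u) ∧ Nonempty (Drawing E) ∧
    ∀ (D : Drawing E) (x0 x1 y0 y1 : ℝ), (∀ u, toR (D.pos u) ∈ Icc x0 x1 ×ˢ Icc y0 y1) →
      (2 : ℝ) ^ (n / 8) ≤ 8 * ((x1 - x0) * (y1 - y0)) := by
  refine ⟨fun u v => Ed u v, outer n, fun v => ?_, ⟨draw n⟩, fun D _ _ _ _ hb => lower hn D hb⟩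
  by_cases c : v.val = 0
  · exact ⟨⟨1, by omega⟩, Ad.ed (by unfold Ad U; simp only; omega)⟩
  by_cases d : v.val % 4 = 2
  · exact ⟨⟨v - 2, by omega⟩, Ad.ed (by unfold Ad U; simp only; omega)⟩
  · exact ⟨⟨v - 1, by omega⟩, Ad.ed (by unfold Ad U; simp only; omega)⟩

end Pool.Agent.H.MP_5a9264_co
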